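import Pool.Agent.H74.ZP.Cos

/-!
# Universal hypersurfaces for the Zilber–Pink conjecture for tori

Let `k` be an algebraically closed field of characteristic zero, `f` a polynomial in `n` variables
over `k` and `V : f = 0` the hypersurface in the torus `G_m ^ n`. Assume that `V` is not a finite
union of sets of the form `x_1 ^ d_1 ⋯ x_n ^ d_n = c` (cosets of algebraic subgroups of codimension
one; in the degenerate case `d = 0` the empty set or the whole torus). This is the case for all
irreducible polynomials with at least three terms, for instance for all irreducible plane curves
which are not cosets. Then the Zilber–Pink conjecture for all subvarieties of all tori over all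
algebraically closed fields of characteristic zero is equivalent to the statement that the powers
`V ^ M ⊆ G_m ^ (M n)` of this one hypersurface have only finitely many optimal subvarieties, for
every `M`.

Idea of the proof. By a restriction to a torsion coset of dimension two one is reduced to a plane
curve `C` with a point `(0, u)`, `u ≠ 0`, in its closure. The systems of conditions
`(Z ^ h, T₁) ∈ C`, `(s Z, T₂) ∈ C`, `(Z, T₃) ∈ C`, `T₃ T₂ ^ k = T₁ ^ (k + 1)` define new curves in
the coordinates `(Z, s)`, which have, for large `h` and almost all `k`, a zero and no pole of `Z`
over some value of `s` different from `0` and `∞` (places of function fields and Newton polygons).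
The norm of `Z` is then a rational function of `s` which is not a monomial, and from the graph of
such a function one gets the line `x + y = 1` by torsion twists.

Definitions: `hypPow f M` is the power `V ^ M` (in `Pool.Agent.H74.ZP.Poly`); `Subvariety`, `vdim`,
`TorsionCoset`, `hull`, `defect`, `Optimal` are those of `Pool.Agent.R948.Var`.
-/

set_option autoImplicit false

open Pool.Agent.R948 Pool.Agent.H74.ZP

/-- **The powers of a hypersurface which is not a finite union of cosets are universal for the
Zilber–Pink conjecture for tori.** -/
theorem Pool.Agent.H74.ZPU.UniversalHypersurfaces.result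
    {n : ℕ} {k : Type} [Field k] [IsAlgClosed k] [CharZero k] (f : MvPolynomial (Fin n) k)
    (hf : ¬ ∃ S : Set ((Fin n → ℤ) × kˣ), S.Finite ∧
      {x : Fin n → kˣ | MvPolynomial.eval (fun i => (x i : k)) f = 0} =
        ⋃ p ∈ S, {x | ∏ i, x i ^ p.1 i = p.2}) :
    (∀ (k' : Type) [Field k'] [IsAlgClosed k'] [CharZero k'] (ι : Type) [Fintype ι]
      (V : Set (ι → k'ˣ)), Subvariety V → {A : Set (ι → k'ˣ) | Optimal A V}.Finite) ↔
    ∀ M : ℕ, {A : Set (Fin M × Fin n → kˣ) | Optimal A (hypPow f M)}.Finite :=
  zp_iff5 f hf
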